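import Mathlib
import Pool.Agent.Lib.WSK.Basic
import Pool.Agent.Lib.WSK.Graphs
import Pool.Agent.Lib.WSK.KagomeTwo
import Pool.Agent.Lib.WSK.KagomeFam

set_option autoImplicit false

/-!
# The WSK dynamics for three colours on the periodic kagome lattice

For `n ≥ 2` the Wang-Swendsen-Kotecky dynamics for `q = 3` colours on the periodic kagome lattice
with `3 n ^ 2` sites is ergodic exactly for `n = 2`.

* For every `n ≥ 3` the parity of the number of honeycomb vertices around which the three colours
  appear in positive orientation is invariant under Kempe changes; it is even for the colouring by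
  directions and odd for an explicit colouring.
* For `n = 2` ergodicity is proved by a small kernel-checked certificate.
-/

namespace Pool.Agent.Results.MP_11305c_co.KagomeQ3

open Pool.Agent.Lib.WSK

theorem result (n : ℕ) (hn : 2 ≤ n) : WSKErgodic (kagomeTorus n) 3 ↔ n = 2 := by
  constructor
  · intro h
    by_contra hc
    exact kagome_nonergodic (by omega) h
  · rintro rfl
    exact kagome_ergodic2

end Pool.Agent.Results.MP_11305c_co.KagomeQ3
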