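import Mathlib
import Pool.Agent.Lib.WSK.Basic
import Pool.Agent.Lib.WSK.Graphs
import Pool.Agent.Lib.WSK.Small
import Pool.Agent.Lib.WSK.Seven4
import Pool.Agent.Lib.WSK.Tables

set_option autoImplicit false

/-!
# The WSK dynamics for four colours on the periodic triangular lattice

For `n ≥ 3` the Wang-Swendsen-Kotecky dynamics for `q = 4` colours on the `n × n` periodic
triangular lattice is ergodic exactly for `n = 3, 4, 5, 7`.

* For `n = 6` and `n ≥ 8` the degree modulo four of a colouring (as a simplicial map from the torus
  to the boundary of the tetrahedron) is shown to be invariant under Kempe changes and to take two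
  different values.
* For `n = 3, 4, 5, 7` ergodicity is proved by kernel-checked certificates; for `n = 7` the search is
  reduced first by a counting argument to colourings with five special consecutive sites in a row.
-/

namespace Pool.Agent.Results.MP_11305c_co.TriangularQ4

open Pool.Agent.Lib.WSK

theorem result (n : ℕ) (hn : 3 ≤ n) :
    WSKErgodic (triangularTorus n) 4 ↔ n = 3 ∨ n = 4 ∨ n = 5 ∨ n = 7 := by
  constructor
  · intro h
    by_contra hc
    exact nonergodic (by omega) h
  · rintro (rfl | rfl | rfl | rfl)
    · exact ergodic3
    · exact ergodic4
    · exact ergodic5
    · exact ergodic7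

end Pool.Agent.Results.MP_11305c_co.TriangularQ4
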